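import Mathlib
import Pool.Agent.H14.NilSemi

set_option autoImplicit false

namespace Pool.Agent.Results.MP_57f2ab_co.AllRealised

open Pool.Agent.H14.NilSemi

universe u

/-- Every set of positive integers containing `1` is realised, for every infinite index set. -/
theorem result (Q : Type u) [Infinite Q] (X : Set ℕ) (h1 : 1 ∈ X) (h0 : ∀ h ∈ X, 1 ≤ h) :
    ∃ (S : Type) (_ : Semigroup S) (A : Q → Set S), (Set.range A).Infinite ∧ H A = X :=
  ⟨T, inferInstance, fam_real Q X h1 h0⟩

end Pool.Agent.Results.MP_57f2ab_co.AllRealised
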